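import Pool.Agent.V7H93.Fock.E

/-!
# Radial derivatives and Fock spaces

For all `n`, `0 < p ≤ ∞`, `α > 0` and `N`: an entire function `f` on `ℂⁿ` is in the Fock space `F^p_α` if
and only if `R^N f (z) / (1 + |z|²)^N` is in `L^p_α`.

The proof compares `f` on the shell `k ≤ |z|² < k + 1` with `f` on the shell dilated by `1 - c / (k + 1)`:
the dilation gains the factor `exp (-α c / 4)` in the weight, the images of the shells overlap at most
twice, and the difference is bounded by local means of the radial derivative on discs of the complex line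
through `z` (submean property of `|g|^p` for all `p > 0`).
-/

set_option autoImplicit false

open MeasureTheory
open scoped ENNReal

namespace Pool.Agent.Results.MP_bbe01f_an.RadialDerivativeFockH93

variable {n : ℕ}

/-- `|z|² = |z₁|² + ⋯ + |zₙ|²` -/
noncomputable def nsq (z : Fin n → ℂ) : ℝ := ∑ k, ‖z k‖ ^ 2

/-- the radial derivative `R f (z) = ∑ z_k ∂f/∂z_k (z)` -/
noncomputable def R (f : (Fin n → ℂ) → ℂ) : (Fin n → ℂ) → ℂ :=
  fun z => ∑ k, z k * fderiv ℂ f z (Pi.single k 1)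

/-- `F` is in `L^p_α`: the function `F(z) exp (-α |z|² / 2)` is in `L^p(ℂⁿ)`, Lebesgue measure -/
def MemL (p : ℝ≥0∞) (α : ℝ) (F : (Fin n → ℂ) → ℂ) : Prop :=
  MemLp (fun z => F z * ((Real.exp (-(α * nsq z / 2)) : ℝ) : ℂ)) p volume

/-- `f` is in the Fock space `F^p_α`: it is entire and in `L^p_α` -/
def MemFock (p : ℝ≥0∞) (α : ℝ) (f : (Fin n → ℂ) → ℂ) : Prop :=
  Differentiable ℂ f ∧ MemL p α f

/-- For all `n`, `0 < p ≤ ∞`, `α > 0`, `N` and every entire function `f` on `ℂⁿ`: `f ∈ F^p_α` if and only if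
`R^N f (z) / (1 + |z|²)^N ∈ L^p_α`. -/
theorem result (n : ℕ) (p : ℝ≥0∞) (hp : p ≠ 0) (α : ℝ) (hα : 0 < α) (N : ℕ)
    (f : (Fin n → ℂ) → ℂ) (hf : Differentiable ℂ f) :
    MemFock p α f ↔ MemL p α (fun z => (R^[N] f) z / (((1 + nsq z) ^ N : ℝ) : ℂ)) := by
  have h := Pool.Agent.V7H93.Fock.all_steps (n := n) hα hp hf N
  have hR : (R : ((Fin n → ℂ) → ℂ) → (Fin n → ℂ) → ℂ) = Pool.Agent.V7H93.Fock.rad := rfl
  have e1 : (fun z : Fin n → ℂ => f z * ((Pool.Agent.V7H93.Fock.wt α 0 z : ℝ) : ℂ)) =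
      fun z => f z * ((Real.exp (-(α * nsq z / 2)) : ℝ) : ℂ) := by
    funext z
    unfold Pool.Agent.V7H93.Fock.wt
    rw [pow_zero, inv_one, one_mul]
    rfl
  have e2 : (fun z : Fin n → ℂ => Pool.Agent.V7H93.Fock.rad^[N] f z *
        ((Pool.Agent.V7H93.Fock.wt α N z : ℝ) : ℂ)) =
      fun z => (R^[N] f) z / (((1 + nsq z) ^ N : ℝ) : ℂ) *
        ((Real.exp (-(α * nsq z / 2)) : ℝ) : ℂ) := by
    funext z
    have e3 : Pool.Agent.V7H93.Fock.wt α N z =
        ((1 + nsq z) ^ N)⁻¹ * Real.exp (-(α * nsq z / 2)) := rfl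
    rw [e3, hR, Complex.ofReal_mul, Complex.ofReal_inv]
    ring
  rw [e1, e2] at h
  unfold MemFock MemL
  exact ⟨fun hm => h.1 hm.2, fun hm => ⟨hf, h.2 hm⟩⟩

end Pool.Agent.Results.MP_bbe01f_an.RadialDerivativeFockH93
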